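import Mathlib
import Pool.Agent.Helper77.PMDefs
import Pool.Agent.Helper77.PMBridge

set_option autoImplicit false

namespace Pool.Agent.Results.MP_c38f4a_co.FewVertices

open Pool.Agent.Helper77.PseudoM

universe u

/-- `γ₂(M) ≥ 0` for a discrete `d`-pseudomanifold `M` with at most `2 d + 10` vertices, and more
generally whenever every connected component `K` of the complement graph of `M` (that is, every
indecomposable join factor of `M`) contains no four mutually adjacent vertices of `M`, or has at
most sixteen vertices, or has at most `3 |S| + 3` vertices for some clique `S ⊆ K` of `M`. -/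
theorem result (d : ℕ) {V : Type u} [Finite V] (M : SimpleGraph V) (hM : IsPseudomanifold d M)
    (hfew : Nat.card V ≤ 2 * d + 10 ∨ ∀ K : Mᶜ.ConnectedComponent,
      (∀ S ⊆ K.supp, M.IsClique S → S.ncard ≤ 3) ∨ K.supp.ncard ≤ 16 ∨
      (∃ S ⊆ K.supp, M.IsClique S ∧ K.supp.ncard ≤ 3 * S.ncard + 3)) :
    0 ≤ gamma2 d M := by
  cases d with
  | zero => exact absurd hM (by simp [IsPseudomanifold])
  | succ d =>
    haveI : Fintype V := Fintype.ofFinite V
    exact Pool.Agent.Helper77.PMan.gamma2_nonneg hM hfew

end Pool.Agent.Results.MP_c38f4a_co.FewVertices
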