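import Mathlib
import Pool.Agent.Helper77.PMDefs
import Pool.Agent.Helper16.OG.FIN
import Pool.Agent.Helper8.OG.D
import Pool.Agent.Helper19.OG.GL
import Pool.Agent.Helper56.OG.BIP
import Pool.Agent.Helper56.OG.C
import Pool.Agent.Helper91.OG.DR
import Pool.Agent.Helper91.OG.SUM

set_option autoImplicit false

namespace Pool.Agent.Results.MP_c38f4a_co.OrderComplexes

open Pool.Agent.Helper77.PseudoM Pool.Agent.Helper16.OG

universe u

/-- `γ₂(M) ≥ 0` for every `d` and every discrete `d`-pseudomanifold `M` whose graph is the
comparability graph of a partial order on its vertex set, that is, for the order complexes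
(barycentric subdivisions) of thin strongly connected graded posets, such as abstract polytopes
and cell decompositions of normal pseudomanifolds, of any topological type. -/
theorem result (d : ℕ) {V : Type u} [Finite V] [PartialOrder V] (M : SimpleGraph V)
    (hM : IsPseudomanifold d M) (hord : ∀ x y : V, M.Adj x y ↔ x < y ∨ y < x) :
    0 ≤ gamma2 d M :=
  main_of_rows (st_A st_EX st_DR) (st_B st_GL st_SPL) st_C (st_D st_BIP) st_SUM d M hM hord

end Pool.Agent.Results.MP_c38f4a_co.OrderComplexes
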